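import Pool.Agent.Helper29.BL.GoalsF

/-!
# Project BL: `PEXg`, a transcendental number is the `x`-coordinate of a nonsingular point
-/

set_option autoImplicit false

namespace Pool.Agent.Helper56.BL

open WeierstrassCurve Height Height.AdmissibleAbsValues Polynomial
open scoped Polynomial.Bivariate
open Pool.Agent.Helper29.BL

theorem pexg : PEXg := by
  intro K _ _ Ω _ _ _ W a ha
  obtain ⟨y, hy⟩ := IsAlgClosed.exists_root
    (X ^ 2 + C ((bcW Ω W).a₁ * a + (bcW Ω W).a₃) * X -
      C (a ^ 3 + (bcW Ω W).a₂ * a ^ 2 + (bcW Ω W).a₄ * a + (bcW Ω W).a₆) : Polynomial Ω) (by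
      have : (X ^ 2 + C ((bcW Ω W).a₁ * a + (bcW Ω W).a₃) * X -
          C (a ^ 3 + (bcW Ω W).a₂ * a ^ 2 + (bcW Ω W).a₄ * a + (bcW Ω W).a₆) :
          Polynomial Ω).degree = 2 := by
        compute_degree!
      rw [this]; decide)
  have heq : (bcW Ω W).Equation a y := by
    rw [Affine.equation_iff]
    simp only [IsRoot.def, eval_sub, eval_add, eval_pow, eval_X, eval_mul, eval_C] at hy
    linear_combination hy
  have hns : (bcW Ω W).Nonsingular a y := by
    rw [Affine.nonsingular_iff]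
    refine ⟨heq, ?_⟩
    by_contra hn
    push Not at hn
    obtain ⟨h1, h2⟩ := hn
    apply ha
    refine ⟨C 6 * X ^ 2 + C (4 * W.a₂ + W.a₁ ^ 2) * X + C (2 * W.a₄ + W.a₁ * W.a₃), ?_, ?_⟩
    · intro h
      have h3 := congrArg (fun p : K[X] => p.coeff 2) h
      simp only [coeff_add, coeff_C_mul, coeff_X_pow, coeff_zero] at h3
      rw [coeff_X_of_ne_one (by norm_num), coeff_C_of_ne_zero (by norm_num)] at h3
      norm_num at h3
    · simp only [map_add, map_mul, map_pow, aeval_X, aeval_C]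
      have e1 : (bcW Ω W).a₁ = algebraMap K Ω W.a₁ := rfl
      have e2 : (bcW Ω W).a₂ = algebraMap K Ω W.a₂ := rfl
      have e3 : (bcW Ω W).a₃ = algebraMap K Ω W.a₃ := rfl
      have e4 : (bcW Ω W).a₄ = algebraMap K Ω W.a₄ := rfl
      rw [e1, e2, e4] at h1
      rw [e1, e3] at h2
      simp only [map_ofNat]
      linear_combination (-2) * h1 + algebraMap K Ω W.a₁ * h2
  exact ⟨Affine.Point.some a y hns, Affine.Point.some_ne_zero _, rfl⟩

end Pool.Agent.Helper56.BL
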